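import Pool.Agent.Helper76.TC2.Goals

/-! Project TC2: the final step. -/

set_option autoImplicit false

open Set

namespace Pool.Agent.Helper76.TC2

open Pool.Agent.Helper76.TC (TorusMetric Pack Near IsTorus fo med mm uu dd Cell StmtFINAL)

theorem strong (hEX : S_EX2) (hPK : S_PK2) (hNR : S_NR2) (hSC : S_SC) (hGT : S_GT) (m : ℕ) (N : ℝ)
    (hN : (m : ℝ) + 4 ≤ N) : Strong (m + 3) N := by
  refine ⟨8 ^ (m + 4) * (46 : ℝ) ^ N, fun l δ hl hδ => ?_⟩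
  obtain ⟨ε, hε⟩ : ∃ ε : ℝ, ε = δ / (47 * l) := ⟨_, rfl⟩
  have hε0 : 0 < ε := by rw [hε]; positivity
  obtain ⟨e1, e2, e3⟩ := hEX m ε hε0
  obtain ⟨s1, s2, s3⟩ := hSC (m + 3) (ii (m + 3) (dd m ε)) l hl
  have hle : l * (47 * ε) = δ := by
    rw [hε]
    field_simp
  have hp : ∀ R0 : ℝ, Pack (m + 3) (8 ^ (m + 4) * (46 : ℝ) ^ N) N R0 (ii (m + 3) (dd m ε)) := by
    refine hPK m ε N _ hε0 hN fun x y => ⟨(e3 x y).1, (e3 x y).2.trans ?_⟩
    unfold dd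
    have := abs_nonneg (uu m x - uu m y)
    linarith
  refine ⟨fun x y => l * ii (m + 3) (dd m ε) x y, s1 e1, s2 e2, s3 _ _ hp, ?_⟩
  refine hNR m 1 l (l * (46 * ε)) δ _ (hGT _ _ (s1 e1) (s2 e2)) hl (by positivity) ?_ fun x y => ⟨?_, ?_⟩
  · have : 0 < l * ε := by positivity
    linarith
  · refine mul_le_mul_of_nonneg_left (le_trans ?_ (e3 x y).1) hl.le
    unfold dd
    have : 0 ≤ ε * ‖x - y‖ := by positivity
    linarith
  · have := mul_le_mul_of_nonneg_left (e3 x y).2 hl.le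
    calc l * ii (m + 3) (dd m ε) x y ≤ l * (|uu m x - uu m y| + 46 * ε * ‖x - y‖) := this
      _ = l * |uu m x - uu m y| + l * (46 * ε) * ‖x - y‖ := by ring

theorem weak_of_strong (hGT : S_GT) (n : ℕ) (N : ℝ) (h : Strong n N) : Weak n N := by
  obtain ⟨C, H⟩ := h
  refine ⟨1, C, 1, 1, one_pos, one_pos, fun δ hδ => ?_⟩
  obtain ⟨d, h1, h2, h3, h4⟩ := H 1 δ one_pos hδ
  exact ⟨d, hGT n d h1 h2, h3 1, h4⟩

theorem fin2 (hF : StmtFINAL) (hEX : S_EX2) (hPK : S_PK2) (hNR : S_NR2) (hSC : S_SC) (hGT : S_GT) :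
    S_FIN2 := by
  intro n N
  refine ⟨hF n N, fun h => (hF n N).1 (weak_of_strong hGT n N h), ?_⟩
  rintro ⟨h3, hN⟩
  obtain ⟨m, rfl⟩ : ∃ m, n = m + 3 := ⟨n - 3, by omega⟩
  refine strong hEX hPK hNR hSC hGT m N ?_
  push_cast at hN
  linarith

end Pool.Agent.Helper76.TC2
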