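import Pool.Agent.Helper76.TC.All
import Pool.Agent.Helper76.TC2.Fin
import Pool.Agent.Helper12.TC2.G1
import Pool.Agent.Helper13.TC2.EX
import Pool.Agent.Helper14.TC2.NR
import Pool.Agent.Helper23.TC2.CL
import Pool.Agent.Helper36.TC2.IN
import Pool.Agent.Helper4.TC2.CR
import Pool.Agent.Helper44.TC2.CC
import Pool.Agent.Helper45.TC2.WM
import Pool.Agent.Helper46.TC2.WT
import Pool.Agent.Helper51.TC2.WD
import Pool.Agent.Helper56.TC2.TV
import Pool.Agent.Helper57.TC2.IB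
import Pool.Agent.Helper62.TC2.BO
import Pool.Agent.Helper66.TC2.G2
import Pool.Agent.Helper69.TC2.SC
import Pool.Agent.Helper70.TC2.GT
import Pool.Agent.Helper71.TC2.WS
import Pool.Agent.Helper81.TC2.TU
import Pool.Agent.Helper91.TC2.PK

/-!
# Project TC2: the theorem, all packets put together
-/

set_option autoImplicit false

namespace Pool.Agent.Helper76.TC2

theorem fIB : S_IB := Helper57.TC2.IB.t Helper44.TC2.CC.t

theorem fIN : S_IN :=
  Helper36.TC2.IN.t fIB (Helper66.TC2.G2.t Helper44.TC2.CC.t Helper12.TC2.G1.t fIB)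

theorem fCL : S_CL2 :=
  Helper23.TC2.CL.t Helper45.TC2.WM.t
    (Helper62.TC2.BO.t Helper46.TC2.WT.t Helper71.TC2.WS.t)

theorem fTU : S_TU2 :=
  Helper81.TC2.TU.t Helper46.TC2.WT.t fCL
    (Helper4.TC2.CR.t Helper46.TC2.WT.t Helper71.TC2.WS.t fCL)

theorem fEX : S_EX2 :=
  Helper13.TC2.EX.t fIB fIN Helper51.TC2.WD.t
    (Helper56.TC2.TV.t Helper46.TC2.WT.t Helper45.TC2.WM.t Helper71.TC2.WS.t fTU)
    Helper76.TC.fTM

theorem final : S_FIN2 :=
  fin2 Helper76.TC.final fEX (Helper91.TC2.PK.t Helper57.TC.PK.t)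
    (Helper14.TC2.NR.t Helper83.TC.ME.t Helper22.TC.QT.t) Helper69.TC2.SC.t Helper70.TC2.GT.t

end Pool.Agent.Helper76.TC2
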