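import Pool.Agent.Helper76.TC.Goals

/-!
# Project TC2 (MP_ccd65d_gt): geodesic examples

For `n ≥ 3` and `N ≥ n + 1` the examples of project TC can be taken geodesic, with packing at all scales, near `[0, l]` for
every `l > 0`. The new metric is the intrinsic metric `ii` of `dd m ε x y = ε ‖x - y‖ + |u x - u y|`; it satisfies
`dd m ε ≤ ii ≤ |u x - u y| + 46 ε ‖x - y‖`.

In all proofs `E = Fin n → ℝ` with the maximum norm.
-/

set_option autoImplicit false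

open Set

namespace Pool.Agent.Helper76.TC2

open Pool.Agent.Helper50.CT (rv)
open Pool.Agent.Helper76.TC (TorusMetric Pack Near IsTorus fo med mm uu dd Cell)

/-! ## Definitions -/

/-- `d` is a `ℤⁿ`-periodic metric on `ℝⁿ`, bi-Lipschitz to the norm. -/
structure Base (n : ℕ) (d : (Fin n → ℝ) → (Fin n → ℝ) → ℝ) : Prop where
  symm : ∀ x y, d x y = d y x
  triangle : ∀ x y z, d x z ≤ d x y + d y z
  periodic : ∀ (k : Fin n → ℤ) (x y : Fin n → ℝ), d (rv k + x) (rv k + y) = d x y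
  bilip : ∃ c C : ℝ, 0 < c ∧ ∀ x y, c * ‖x - y‖ ≤ d x y ∧ d x y ≤ C * ‖x - y‖

/-- any two points are joined by a minimizing geodesic -/
def Geod (n : ℕ) (d : (Fin n → ℝ) → (Fin n → ℝ) → ℝ) : Prop :=
  ∀ x y, ∃ γ : ℝ → (Fin n → ℝ), γ 0 = x ∧ γ (d x y) = y ∧
    ∀ s ∈ Icc 0 (d x y), ∀ t ∈ Icc 0 (d x y), d (γ s) (γ t) = |s - t|

/-- a chain from `x` to `y` with steps at most `η` (in the norm) and of `d`-length at most `L` -/
def Chn (n : ℕ) (d : (Fin n → ℝ) → (Fin n → ℝ) → ℝ) (η L : ℝ) (x y : Fin n → ℝ) : Prop :=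
  ∃ (k : ℕ) (z : ℕ → (Fin n → ℝ)), z 0 = x ∧ z k = y ∧ (∀ i < k, ‖z i - z (i + 1)‖ ≤ η) ∧
    ∑ i ∈ Finset.range k, d (z i) (z (i + 1)) ≤ L

/-- `L` is an upper bound for the length: there are chains with arbitrarily small steps -/
def Adm (n : ℕ) (d : (Fin n → ℝ) → (Fin n → ℝ) → ℝ) (L : ℝ) (x y : Fin n → ℝ) : Prop :=
  ∀ η : ℝ, 0 < η → Chn n d η L x y

/-- the intrinsic metric of `d` -/
noncomputable def ii (n : ℕ) (d : (Fin n → ℝ) → (Fin n → ℝ) → ℝ) (x y : Fin n → ℝ) : ℝ :=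
  sInf {L | Adm n d L x y}

/-- `d` is quasi-convex: its lengths are at most `A d` -/
def QC (n : ℕ) (A : ℝ) (d : (Fin n → ℝ) → (Fin n → ℝ) → ℝ) : Prop :=
  ∀ x y, Adm n d (A * d x y) x y

/-- chains with arbitrarily small steps, of length at most `a` and with variation of `f` at most `b` -/
def W (n : ℕ) (f : (Fin n → ℝ) → ℝ) (a b : ℝ) (x y : Fin n → ℝ) : Prop :=
  ∀ η : ℝ, 0 < η → ∃ (k : ℕ) (z : ℕ → (Fin n → ℝ)), z 0 = x ∧ z k = y ∧
    (∀ i < k, ‖z i - z (i + 1)‖ ≤ η) ∧ ∑ i ∈ Finset.range k, ‖z i - z (i + 1)‖ ≤ a ∧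
      ∑ i ∈ Finset.range k, |f (z i) - f (z (i + 1))| ≤ b

/-- the median of the coordinates -/
noncomputable def g3 (p : Fin 3 → ℝ) : ℝ := med (p 0) (p 1) (p 2)

/-! ## Part I: intrinsic metrics -/

/-- CC. Calculus of chains. PROOF. Concatenation: `z i = if i ≤ k₁ then z₁ i else z₂ (i - k₁)`, `Finset.sum_range_add`
(`Finset.prod_range_add`); reversal `z (k - i)` (`Finset.sum_range_reflect`); translation; `d x y ≤ L`: triangle inequality by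
induction (`d x x = 0` by `bilip` for `k = 0`); monotone; a single step: `k = 1`. -/
def S_CC : Prop := ∀ (n : ℕ) (d : (Fin n → ℝ) → (Fin n → ℝ) → ℝ), Base n d →
  (∀ (η L L' : ℝ) (x y z : Fin n → ℝ), Chn n d η L x y → Chn n d η L' y z → Chn n d η (L + L') x z) ∧
  (∀ (η L : ℝ) (x y : Fin n → ℝ), Chn n d η L x y → Chn n d η L y x) ∧
  (∀ (η L : ℝ) (x y : Fin n → ℝ) (k : Fin n → ℤ), Chn n d η L x y → Chn n d η L (rv k + x) (rv k + y)) ∧
  (∀ (η L : ℝ) (x y : Fin n → ℝ), Chn n d η L x y → d x y ≤ L) ∧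
  (∀ (η η' L L' : ℝ) (x y : Fin n → ℝ), η ≤ η' → L ≤ L' → Chn n d η L x y → Chn n d η' L' x y) ∧
  ∀ (η : ℝ) (x y : Fin n → ℝ), ‖x - y‖ ≤ η → Chn n d η (d x y) x y

/-- G1. Parametrization of one chain by its length. PROOF. Let `k, z` be the chain, `S i = ∑_{j<i} d (z j) (z (j+1))`
(nondecreasing as `d ≥ 0`, increments `≤ C η`, `S k ≤ D + η`). For `t` let `i(t)` be the least `i` with `i = k ∨ t ≤ S i`
(`Nat.find`), so `i(t) ≤ k`; `g t = z (i t)`. `i(0) = 0`. For `s ≤ t`: `i(s) ≤ i(t)`, and the part of the chain from `i(s)` to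
`i(t)` (`j ↦ z (i(s) + j)`) has length `S (i t) - S (i s)`: it is `0 ≤ t - s + C η` if `i(s) = i(t)` (`0 ≤ C η` because
`0 ≤ d x x ≤ C η`), otherwise `i(s) < k`, so `S (i s) ≥ s`, and `S (i t - 1) < t`, so `S (i t) ≤ t + C η`. From `g D` to `y`: if
`i(D) = k` the length is `0`, otherwise `S (i D) ≥ D` and the rest has length `≤ η`. -/
def S_G1 : Prop := ∀ (n : ℕ) (d : (Fin n → ℝ) → (Fin n → ℝ) → ℝ) (C η D : ℝ) (x y : Fin n → ℝ), 0 < η → 0 ≤ D →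
  (∀ u v, 0 ≤ d u v) → (∀ u v : Fin n → ℝ, ‖u - v‖ ≤ η → d u v ≤ C * η) → Chn n d η (D + η) x y →
  ∃ g : ℝ → (Fin n → ℝ), g 0 = x ∧ Chn n d η (η + C * η) (g D) y ∧
    ∀ s t : ℝ, 0 ≤ s → s ≤ t → t ≤ D → Chn n d η (t - s + C * η) (g s) (g t)

/-- IB. Basic properties of `ii`. USES: CC. PROOF. `{L | Adm n d L x y}` contains `A d x y`, is upward closed and bounded below by
`d x y` (CC with `η = 1`). So `d x y ≤ ii x y ≤ L` for admissible `L`, and every `τ > ii x y` is admissible. `Base`: symmetric and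
periodic: the two sets are equal (CC; for periodic use `k` and `-k`, `rv (-k) + (rv k + x) = x`); triangle: for `τ > ii x y`, `τ' > ii y z` the sum is admissible (CC), `le_of_forall_pos_le_add` or the like;
`bilip`: `c ‖x - y‖ ≤ d x y ≤ ii x y ≤ A d x y ≤ |A| C ‖x - y‖` (`0 ≤ d ≤ C ‖x - y‖`). -/
def S_IB : Prop := ∀ (n : ℕ) (A : ℝ) (d : (Fin n → ℝ) → (Fin n → ℝ) → ℝ), Base n d → QC n A d →
  (∀ x y, d x y ≤ ii n d x y) ∧ (∀ (L : ℝ) (x y : Fin n → ℝ), Adm n d L x y → ii n d x y ≤ L) ∧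
  (∀ (τ : ℝ) (x y : Fin n → ℝ), ii n d x y < τ → Adm n d τ x y) ∧ Base n (ii n d)

/-- G2. Geodesics. USES: CC, G1, IB. PROOF. `D = ii x y ≥ 0`. For `j : ℕ` let `η_j = 1/(j+1)`; `D + η_j` is admissible (IB), so there
is a chain with steps `≤ η_j` of length `≤ D + η_j`; G1 gives `g_j` (`C` the constant of `bilip`, replaced by `max C 0`). All points `g_j t`, `0 ≤ t ≤ D`, satisfy
`c ‖x - g_j t‖ ≤ d x (g_j t) ≤ D + C` (CC, `s = 0`), so they lie in a closed ball `K` of `E`, which is compact. Let `U = Filter.hyperfilter ℕ` (an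
ultrafilter, finer than `atTop`); for `t ∈ [0, D]` the ultrafilter `U.map (g_· t)` converges to a point `γ t` of `K` (`IsCompact.ultrafilter_le_nhds`).
`γ 0 = x`. `γ D = y`: `c ‖g_j D - y‖ ≤ d (g_j D) y ≤ η_j + C η_j`. For `0 ≤ s ≤ t ≤ D` and `τ, η > 0` there is `j` with `η_j ≤ η`,
`‖g_j s - γ s‖ ≤ η`, `‖g_j t - γ t‖ ≤ η`, `C ‖g_j s - γ s‖ + C ‖g_j t - γ t‖ + C η_j ≤ τ` (all hold eventually along `U`); the chain `γ s → g_j s → g_j t → γ t` has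
steps `≤ η` and length `≤ t - s + τ` (CC). So `t - s + τ` is admissible for all `τ > 0` and `ii (γ s) (γ t) ≤ t - s` (IB). -/
def S_G2 : Prop := ∀ (n : ℕ) (A : ℝ) (d : (Fin n → ℝ) → (Fin n → ℝ) → ℝ), Base n d → QC n A d →
  ∀ x y, ∃ γ : ℝ → (Fin n → ℝ), γ 0 = x ∧ γ (ii n d x y) = y ∧
    ∀ s t : ℝ, 0 ≤ s → s ≤ t → t ≤ ii n d x y → ii n d (γ s) (γ t) ≤ t - s

/-- IN. USES: IB, G2. PROOF. `γ` from G2, `D = ii x y`. For `0 ≤ s ≤ t ≤ D`: `D ≤ ii x (γ s) + ii (γ s) (γ t) + ii (γ t) y ≤ s + ii (γ s) (γ t) + D - t`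
(triangle inequality of `Base n (ii n d)`), so `ii (γ s) (γ t) = t - s`; symmetric. -/
def S_IN : Prop := ∀ (n : ℕ) (A : ℝ) (d : (Fin n → ℝ) → (Fin n → ℝ) → ℝ), Base n d → QC n A d → Geod n (ii n d)

/-- GT. PROOF. `turn`: let `γ` be the geodesic from `x` to `y`, `D = d x y ≥ 0`. The path `t ↦ γ (t D)`, `t ∈ [0, 1]`, is continuous:
`c ‖γ s - γ t‖ ≤ d (γ s) (γ t) = |s - t|`; and `d x (γ s) = s ≤ D`. -/
def S_GT : Prop := ∀ (n : ℕ) (d : (Fin n → ℝ) → (Fin n → ℝ) → ℝ), Base n d → Geod n d → TorusMetric n 1 d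

/-- SC. Scaling. PROOF. Geodesic for `l d`: `t ↦ γ (t / l)`. `Pack`: an `r`-separated set in the `R`-ball of `l d` is an `r/l`-separated set in the
`R/l`-ball of `d`, `(R/l)/(r/l) = R/r`. -/
def S_SC : Prop := ∀ (n : ℕ) (d : (Fin n → ℝ) → (Fin n → ℝ) → ℝ) (l : ℝ), 0 < l →
  (Base n d → Base n fun x y => l * d x y) ∧ (Geod n d → Geod n fun x y => l * d x y) ∧
    ∀ C N : ℝ, (∀ R0 : ℝ, Pack n C N R0 d) → ∀ R0 : ℝ, Pack n C N R0 fun x y => l * d x y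

/-! ## Part II: chains for the function `u` -/

/-- WT. PROOF. As in CC: concatenation, reversal, monotonicity, the constant chain. -/
def S_WT : Prop := ∀ (n : ℕ) (f : (Fin n → ℝ) → ℝ),
  (∀ (a b a' b' : ℝ) (x y z : Fin n → ℝ), W n f a b x y → W n f a' b' y z → W n f (a + a') (b + b') x z) ∧
  (∀ (a b : ℝ) (x y : Fin n → ℝ), W n f a b x y → W n f a b y x) ∧
  (∀ (a b a' b' : ℝ) (x y : Fin n → ℝ), a ≤ a' → b ≤ b' → W n f a b x y → W n f a' b' x y) ∧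
  ∀ x : Fin n → ℝ, W n f 0 0 x x

/-- WM. Transfer. PROOF. Apply `ψ` to the chain for `η` (`‖ψ z - ψ w‖ ≤ ‖z - w‖`). -/
def S_WM : Prop := ∀ (n n' : ℕ) (f : (Fin n → ℝ) → ℝ) (f' : (Fin n' → ℝ) → ℝ) (μ a b : ℝ)
  (ψ : (Fin n → ℝ) → (Fin n' → ℝ)) (x y : Fin n → ℝ), 0 ≤ μ → (∀ z w, ‖ψ z - ψ w‖ ≤ ‖z - w‖) →
  (∀ z w, |f' (ψ z) - f' (ψ w)| ≤ μ * |f z - f w|) → W n f a b x y → W n' f' a (μ * b) (ψ x) (ψ y)

/-- WS. Monotone segments. PROOF. Divide the segment in `M` equal parts, `‖y - x‖ / M ≤ η`: `z i = x + (i / M) • (y - x)`. The sum of the lengths is `‖x - y‖`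
(`M` terms `‖y - x‖ / M`), and the sum of the `|f (z i) - f (z (i+1))|` telescopes to `|f x - f y|` (`f` is monotone or antitone along the segment;
`Finset.sum_range_sub`). -/
def S_WS : Prop := ∀ (n : ℕ) (f : (Fin n → ℝ) → ℝ) (x y : Fin n → ℝ),
  (MonotoneOn (fun t : ℝ => f (x + t • (y - x))) (Icc 0 1) ∨
    AntitoneOn (fun t : ℝ => f (x + t • (y - x))) (Icc 0 1)) → W n f ‖x - y‖ |f x - f y| x y

/-- WD. PROOF. The same chain: `∑ (ε ‖..‖ + |..|) = ε ∑ ‖..‖ + ∑ |..|`. -/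
def S_WD : Prop := ∀ (m : ℕ) (ε a b : ℝ) (x y : Fin (m + 3) → ℝ), 0 ≤ ε → W (m + 3) (uu m) a b x y →
  Adm (m + 3) (dd m ε) (ε * a + b) x y

/-- BO. USES: WT, WS. PROOF. Compare `Pool/Agent/Helper62/TC/BO.lean` (copy it; its lemmas can be cited). By symmetry let `g3 p ≤ β = g3 q`.
`p' i = max (p i) (min (q i) β)` and `r i = max (min (p' i) (q i)) (min (max (p' i) (q i)) β)`. Along the segment `p → p'` all
coordinates increase, so `g3` is monotone, and `g3 p' = β`: WS gives `W (‖p - p'‖) |g3 p - g3 q|`. Along the segments `p' → r`, `r → q` the function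
`g3` is constant `β` (`mid` in that file): `W ‖p' - r‖ 0`, `W ‖r - q‖ 0`. All `p' i`, `r i` are between `p i` and `q i`, so the three norms are at most `‖p - q‖`. -/
def S_BO2 : Prop := ∀ p q : Fin 3 → ℝ, W 3 g3 (3 * ‖p - q‖) |g3 p - g3 q| p q

/-- CL. USES: WM, BO2. PROOF. Compare `Pool/Agent/Helper45/TC/CL.lean`. Let `j i` be the index of the common cell of `x i`, `x' i`, and `p i = fo (x i)`, `q i = fo (x' i)`, so
`‖p - q‖ = ‖x - x'‖` (on a cell `fo` is `t - j/2` for even `j` and `(j+1)/2 - t` for odd `j`). Apply WM (`μ = 1`) to the map `ψ` with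
`ψ z i = j/2 + clamp (z i)` or `(j+1)/2 - clamp (z i)`, `clamp t = max 0 (min t (1/2))`: it is `1`-Lipschitz, `ψ p = x`, `ψ q = x'`, `fo (ψ z i) = clamp (z i)`, so
`mm (ψ z) = clamp (g3 z)` (the median commutes with `clamp`: `med_min`, `med_max` in `Pool/Agent/Helper62/TC/BO.lean`), and `clamp` is `1`-Lipschitz. -/
def S_CL2 : Prop := ∀ x x' : Fin 3 → ℝ, (∀ i, Cell (x i) (x' i)) →
  W 3 mm (3 * ‖x - x'‖) |mm x - mm x'| x x'

/-- CR. USES: WT, WS, CL2. PROOF. Copy `Pool/Agent/Helper85/TC/CR.lean` (its lemmas `idx`, `vals`, `pt_cell`, `pt_fo`, `pt_dist` can be cited). With `w = |b - z i|` it gives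
`z1` (the coordinate `i` as in `z`, the others in the cells of `z j`, `z k`, at distance at most `w`) with `mm z1 = mm z` and `mm` constant along the segment from
`z1` to `update z1 i b`. CL2: `W (3w) 0 z z1`; WS: `W w 0 z1 (update z1 i b)`; CL2: `W (3w) 0 (update z1 i b) (update z i b)`. -/
def S_CR2 : Prop := ∀ (z : Fin 3 → ℝ) (i : Fin 3) (b : ℝ), fo b = fo (z i) →
  W 3 mm (7 * |b - z i|) 0 z (Function.update z i b)

/-- TU. USES: WT, CL2, CR2. PROOF. `δ = ‖p - q‖`. `y i` = the point of the cell of `p i` with `fo (y i) = fo (q i)`, `|y i - p i| ≤ |q i - p i|` (`exists_cell` in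
`Pool/Agent/Helper23/TC/TU.lean` can be cited). CL2: `W (3δ) |mm p - mm q| p y`. CR2 for `i = 0, 1, 2`, replacing `y i` by `q i`: `|q i - y i| ≤ 2δ`, so each costs `14δ` and `0`. -/
def S_TU2 : Prop := ∀ p q : Fin 3 → ℝ, W 3 mm (45 * ‖p - q‖) |mm p - mm q| p q

/-- TV. USES: WT, WM, WS, TU2. PROOF. As in `Pool/Agent/Helper23/TC/TU.lean` (`E`, `fst3`, `uu_eq`, `fst3_E`, `E_fst3` can be cited): `p = fst3 m x`, `q = fst3 m y`. WS: `x → E m y p`, where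
`uu` is constant: `W ‖x - y‖ 0`. WM with `ψ = E m y`, `μ = 2` (`uu m (E m y z) = 2 mm z`): `W (45 ‖p - q‖) (2 |mm p - mm q|)` from `E m y p` to `E m y q = y`, and `2 |mm p - mm q| = |uu x - uu y|`, `‖p - q‖ ≤ ‖x - y‖`. -/
def S_TV2 : Prop := ∀ (m : ℕ) (x y : Fin (m + 3) → ℝ),
  W (m + 3) (uu m) (46 * ‖x - y‖) |uu m x - uu m y| x y

/-! ## Part III: the example -/

/-- EX. USES: IB, IN, WD, TV2, `S_TM` (of TC; proved: `Pool.Agent.Helper76.TC.fTM` in `Pool/Agent/Helper76/TC/All.lean`; `open TC (S_TM)`). PROOF. `Base` from `S_TM`. TV2 and WD: `ε (46 ‖x - y‖) + |uu x - uu y|` is admissible, so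
`QC` with `A = 46`: `Adm` is monotone in `L` (a chain of length `≤ L` has length `≤ L'`). -/
def S_EX2 : Prop := ∀ (m : ℕ) (ε : ℝ), 0 < ε → Base (m + 3) (ii (m + 3) (dd m ε)) ∧
  Geod (m + 3) (ii (m + 3) (dd m ε)) ∧ ∀ x y : Fin (m + 3) → ℝ, dd m ε x y ≤ ii (m + 3) (dd m ε) x y ∧
    ii (m + 3) (dd m ε) x y ≤ |uu m x - uu m y| + 46 * ε * ‖x - y‖

/-- PK. USES: `S_PK` (of TC; proved: `Pool.Agent.Helper57.TC.PK.t`; take it as an argument). PROOF. An `r`-separated set in the `R`-ball of `d` is `r/46`-separated in the `R`-ball of `dd m ε`; so it has at most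
`8^(m+4) (46 R/r)^N` points (`Real.mul_rpow`). -/
def S_PK2 : Prop := ∀ (m : ℕ) (ε N : ℝ) (d : (Fin (m + 3) → ℝ) → (Fin (m + 3) → ℝ) → ℝ), 0 < ε →
  (m : ℝ) + 4 ≤ N → (∀ x y, dd m ε x y ≤ d x y ∧ d x y ≤ 46 * dd m ε x y) →
  ∀ R0 : ℝ, Pack (m + 3) (8 ^ (m + 4) * (46 : ℝ) ^ N) N R0 d

/-- NR. USES: `S_ME`, `S_QT` (of TC; proved; take them as arguments). PROOF. Copy `Pool/Agent/Helper96/TC/NR.lean`. `T, π` from QT. `l |uu x - uu y| ≤ dist (π x) (π y) ≤ l |uu x - uu y| + e`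
(`k i = round (x i - y i)`, `‖x - (rv k + y)‖ ≤ 1`). So `l * uu` induces a map `Ψ : T → [0, l]`, onto, with `|dist s t - dist (Ψ s) (Ψ t)| ≤ e`, and `ghDist ≤ e/2 < δ`. -/
def S_NR2 : Prop := ∀ (m : ℕ) (A l e δ : ℝ) (d : (Fin (m + 3) → ℝ) → (Fin (m + 3) → ℝ) → ℝ),
  TorusMetric (m + 3) A d → 0 < l → 0 < e → e < δ →
  (∀ x y, l * |uu m x - uu m y| ≤ d x y ∧ d x y ≤ l * |uu m x - uu m y| + e * ‖x - y‖) → Near (m + 3) d l δ

/-! ## The final statement -/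

/-- weak version -/
def Weak (n : ℕ) (N : ℝ) : Prop := ∃ A C R0 l : ℝ, 0 < R0 ∧ 0 < l ∧ ∀ δ : ℝ, 0 < δ →
  ∃ d : (Fin n → ℝ) → (Fin n → ℝ) → ℝ, TorusMetric n A d ∧ Pack n C N R0 d ∧ Near n d l δ

/-- strong version -/
def Strong (n : ℕ) (N : ℝ) : Prop := ∃ C : ℝ, ∀ l δ : ℝ, 0 < l → 0 < δ →
  ∃ d : (Fin n → ℝ) → (Fin n → ℝ) → ℝ, Base n d ∧ Geod n d ∧ (∀ R0 : ℝ, Pack n C N R0 d) ∧ Near n d l δ

/-- FIN2. USES: `StmtFINAL`, EX, PK, NR, SC, GT. (helper76) -/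
def S_FIN2 : Prop := ∀ (n : ℕ) (N : ℝ), (Weak n N ↔ 3 ≤ n ∧ (n : ℝ) + 1 ≤ N) ∧ (Strong n N ↔ 3 ≤ n ∧ (n : ℝ) + 1 ≤ N)

end Pool.Agent.Helper76.TC2
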